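import Pool.Agent.BEN.StmtsA
import Pool.Agent.Helper50_BEF.REZ

/-!
# Squad BEN, module REX: the equation in one degree, with values in `X`
-/

namespace Pool.Agent.BEN.H6

open Set Filter Topology MeasureTheory
open scoped InnerProductSpace
open Pool.Agent.BE01 Pool.Agent.BEF Pool.Agent.BEF.H50

noncomputable section

variable {X H : Type} [NormedCommRing X] [NormedAlgebra ℝ X] [NormedAddCommGroup H]
  [InnerProductSpace ℝ H] {m : ℕ}

lemma px_add (φ : Fin m → X) (ψ : ℝ) (z z' : Fin m ⊕ Fin m → ℝ) :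
    px φ ψ (z + z') = px φ ψ z + px φ ψ z' := by
  unfold px
  rw [← Finset.sum_add_distrib]
  refine Finset.sum_congr rfl fun i _ => ?_
  simp only [Pi.add_apply]
  module

lemma px_smul (φ : Fin m → X) (ψ c : ℝ) (z : Fin m ⊕ Fin m → ℝ) :
    px φ ψ (c • z) = c • px φ ψ z := by
  unfold px
  rw [Finset.smul_sum]
  refine Finset.sum_congr rfl fun i _ => ?_
  simp only [Pi.smul_apply, smul_eq_mul]
  module

lemma px_zero (φ : Fin m → X) (ψ : ℝ) : px φ ψ 0 = 0 := by
  unfold px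
  simp

lemma px_cont (φ : Fin m → X) (z : Fin m ⊕ Fin m → ℝ) : Continuous fun ψ => px φ ψ z := by
  unfold px
  fun_prop

/-- The inner product of a vector with the wave. -/
lemma px_inner (W : Wx X H) (φ : Fin m → X) (h : X) (ψ : ℝ) (z : Fin m ⊕ Fin m → ℝ) :
    ⟪W.e h, W.e (px φ ψ z)⟫_ℝ = tg (∑ i, z (Sum.inr i) * ⟪W.e h, W.e (φ i)⟫_ℝ)
      (-∑ i, z (Sum.inl i) * ⟪W.e h, W.e (φ i)⟫_ℝ) 1 ψ := by
  unfold px tg
  rw [map_sum, inner_sum, Finset.sum_mul, neg_mul, Finset.sum_mul, ← Finset.sum_neg_distrib,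
    ← Finset.sum_add_distrib]
  refine Finset.sum_congr rfl fun i _ => ?_
  rw [map_smul, real_inner_smul_right]
  push_cast
  rw [one_mul]
  ring

/-- The conclusion, with continuity and differentiability. -/
def Con (e : ℕ) (W : Wx X H) (ω : ℝ) (φ : Fin m → X)
    (R : ℝ → (Fin m ⊕ Fin m → ℝ) → X) : Prop :=
  (∀ z, Continuous fun ψ => R ψ z) ∧
  ∃ (F' : Fin m ⊕ Fin m → MvPolynomial (Fin m ⊕ Fin m) ℝ) (q : ℝ → (Fin m ⊕ Fin m → ℝ) → X),
    (∀ i, (F' i).IsHomogeneous (2 * e + 1)) ∧ q ∈ HG (Fin m ⊕ Fin m) X (2 * e + 1) ∧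
    (∀ ψ z, DifferentiableAt ℝ (fun s => q s z) ψ ∧ DifferentiableAt ℝ (fun s => dp q s z) ψ) ∧
    (∀ ψ z, (2 * ω) • px φ ψ (vf F' z) + (ω ^ 2) • W.SX (dp (dp q) ψ z) + q ψ z = - R ψ z) ∧
    ∀ z, 2 * ω * Real.pi * ∑ i, z i * vf F' z i =
      - ∫ ψ in (0 : ℝ)..(2 * Real.pi), ⟪W.e (R ψ z), W.e (px φ ψ z)⟫_ℝ

lemma con_gen (e : ℕ) (W : Wx X H) (ω : ℝ) (φ : Fin m → X) (hω : 0 < ω)
    (hφ : Orthonormal ℝ (fun i => W.e (φ i))) (hS : Slx W ω φ (2 * e + 1))
    (f : MvPolynomial (Fin m ⊕ Fin m) ℝ)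
    (j i : ℕ) (h : X) (a b : ℝ) (hf : f.IsHomogeneous (2 * e + 1)) (hj : j + 2 * i = 2 * e + 1) :
    Con e W ω φ (gn f a b j h) := by
  have hcont : ∀ z, Continuous fun ψ => gn f a b j h ψ z := by
    intro z
    exact (continuous_const.mul (tg_cont a b j)).smul continuous_const
  refine ⟨hcont, ?_⟩
  have hdd : ∀ (v : X) (ψ : ℝ) (z : Fin m ⊕ Fin m → ℝ), dp (dp (gn f a b j v)) ψ z =
      (-(j : ℝ) ^ 2 * (MvPolynomial.eval z f * tg a b j ψ)) • v := by
    intro v ψ z
    rw [dp_gn, dp_gn]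
    simp only [gn, tg]
    congr 1
    ring
  have hdif : ∀ (v : X) (ψ : ℝ) (z : Fin m ⊕ Fin m → ℝ),
      DifferentiableAt ℝ (fun s => gn f a b j v s z) ψ ∧
      DifferentiableAt ℝ (fun s => dp (gn f a b j v) s z) ψ := by
    intro v ψ z
    refine ⟨(gn_der f a b j v ψ z).differentiableAt, ?_⟩
    rw [dp_gn]
    exact (gn_der f _ _ j v ψ z).differentiableAt
  have hint : ∀ z : Fin m ⊕ Fin m → ℝ,
      ∫ ψ in (0 : ℝ)..(2 * Real.pi), ⟪W.e (gn f a b j h ψ z), W.e (px φ ψ z)⟫_ℝ =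
        MvPolynomial.eval z f * ∫ ψ in (0 : ℝ)..(2 * Real.pi), tg a b j ψ *
          tg (∑ i, z (Sum.inr i) * ⟪W.e h, W.e (φ i)⟫_ℝ)
            (-∑ i, z (Sum.inl i) * ⟪W.e h, W.e (φ i)⟫_ℝ) 1 ψ := by
    intro z
    rw [← intervalIntegral.integral_const_mul]
    congr 1
    funext ψ
    unfold gn
    rw [map_smul, real_inner_smul_left, px_inner]
    ring
  by_cases hj1 : j = 1
  · subst hj1
    obtain ⟨v, hv⟩ := hS.one (h - ∑ i, ⟪W.e h, W.e (φ i)⟫_ℝ • φ i) (by
      intro l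
      rw [map_sub, map_sum, inner_sub_left, sum_inner]
      simp only [map_smul, real_inner_smul_left]
      rw [Finset.sum_eq_single l]
      · rw [real_inner_self_eq_norm_sq, hφ.1 l]
        ring
      · intro b _ hb
        rw [hφ.2 hb, mul_zero]
      · intro hl
        exact absurd (Finset.mem_univ l) hl)
    refine ⟨Sum.elim (fun l => MvPolynomial.C (b * ⟪W.e h, W.e (φ l)⟫_ℝ / (2 * ω)) * f)
      (fun l => MvPolynomial.C (-(a * ⟪W.e h, W.e (φ l)⟫_ℝ / (2 * ω))) * f), gn f a b 1 (-v), ?_,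
      gn_mem f a b 1 i _ _ hf hj, hdif (-v), ?_, ?_⟩
    · rintro (l | l)
      · simp only [Sum.elim_inl]
        have := (MvPolynomial.isHomogeneous_C (Fin m ⊕ Fin m)
          (b * ⟪W.e h, W.e (φ l)⟫_ℝ / (2 * ω))).mul hf
        rwa [zero_add] at this
      · simp only [Sum.elim_inr]
        have := (MvPolynomial.isHomogeneous_C (Fin m ⊕ Fin m)
          (-(a * ⟪W.e h, W.e (φ l)⟫_ℝ / (2 * ω)))).mul hf
        rwa [zero_add] at this
    · intro ψ z
      rw [hdd]
      have h1 : (2 * ω) • px φ ψ (vf (Sum.elim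
          (fun l => MvPolynomial.C (b * ⟪W.e h, W.e (φ l)⟫_ℝ / (2 * ω)) * f)
          (fun l => MvPolynomial.C (-(a * ⟪W.e h, W.e (φ l)⟫_ℝ / (2 * ω))) * f)) z) =
          (-(MvPolynomial.eval z f * tg a b 1 ψ)) • ∑ l, ⟪W.e h, W.e (φ l)⟫_ℝ • φ l := by
        unfold px
        rw [Finset.smul_sum, Finset.smul_sum]
        refine Finset.sum_congr rfl fun l _ => ?_
        rw [smul_smul, smul_smul]
        congr 1
        simp only [vf, Sum.elim_inl, Sum.elim_inr, map_mul, MvPolynomial.eval_C, tg, Nat.cast_one,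
          one_mul]
        field_simp
        ring
      rw [h1]
      simp only [gn, map_smul, map_neg]
      have h2 : h = v - (ω ^ 2) • W.SX v + ∑ l, ⟪W.e h, W.e (φ l)⟫_ℝ • φ l := by
        rw [hv]; abel
      generalize hs : ∑ l, ⟪W.e h, W.e (φ l)⟫_ℝ • φ l = s at h2 ⊢
      rw [h2]
      push_cast
      module
    · intro z
      rw [hint, tg_one, Fintype.sum_sum_type]
      simp only [vf, Sum.elim_inl, Sum.elim_inr, map_mul, MvPolynomial.eval_C]
      have e1 : ∑ l, z (Sum.inl l) * (b * ⟪W.e h, W.e (φ l)⟫_ℝ / (2 * ω) *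
          MvPolynomial.eval z f) = b / (2 * ω) * MvPolynomial.eval z f *
            ∑ l, z (Sum.inl l) * ⟪W.e h, W.e (φ l)⟫_ℝ := by
        rw [Finset.mul_sum]
        exact Finset.sum_congr rfl fun l _ => by ring
      have e2 : ∑ l, z (Sum.inr l) * (-(a * ⟪W.e h, W.e (φ l)⟫_ℝ / (2 * ω)) *
          MvPolynomial.eval z f) = -(a / (2 * ω)) * MvPolynomial.eval z f *
            ∑ l, z (Sum.inr l) * ⟪W.e h, W.e (φ l)⟫_ℝ := by
        rw [Finset.mul_sum]
        exact Finset.sum_congr rfl fun l _ => by ring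
      rw [e1, e2]
      field_simp
      ring
  · have hodd : Odd j := by
      rw [Nat.odd_iff]
      omega
    have hj3 : 3 ≤ j := by
      rcases hodd with ⟨c, hc⟩
      omega
    obtain ⟨v, hv⟩ := hS.odd j hodd hj3 (by omega) h
    refine ⟨0, gn f a b j (-v), fun _ => MvPolynomial.isHomogeneous_zero _ _ _,
      gn_mem f a b j i _ _ hf hj, hdif (-v), ?_, ?_⟩
    · intro ψ z
      have h0 : vf (0 : Fin m ⊕ Fin m → MvPolynomial (Fin m ⊕ Fin m) ℝ) z = 0 := by
        funext i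
        simp [vf]
      rw [hdd, h0, px_zero]
      simp only [gn, map_smul, map_neg]
      rw [← hv]
      module
    · intro z
      rw [hint, tg_orth a b _ _ j hj1]
      simp [vf]

theorem rex : RexStmt := by
  intro X H _ _ _ _ W m e ω φ R hω hφ hS hR
  suffices hcon : Con e W ω φ R by
    obtain ⟨-, F', q, h1, h2, -, h3, h4⟩ := hcon
    exact ⟨F', q, h1, h2, h3, h4⟩
  induction hR using Submodule.span_induction with
  | mem P hP =>
    obtain ⟨f, j, i, v, hf, hj, hP | hP⟩ := hP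
    · have : P = gn f 1 0 j v := by
        rw [hP]
        funext ψ z
        simp [gn, tg]
      rw [this]
      exact con_gen e W ω φ hω hφ.1 hS f j i v 1 0 hf hj
    · have : P = gn f 0 1 j v := by
        rw [hP]
        funext ψ z
        simp [gn, tg]
      rw [this]
      exact con_gen e W ω φ hω hφ.1 hS f j i v 0 1 hf hj
  | zero =>
    refine ⟨fun z => continuous_const, 0, 0, fun _ => MvPolynomial.isHomogeneous_zero _ _ _,
      Submodule.zero_mem _, fun ψ z => ⟨?_, ?_⟩, ?_, ?_⟩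
    · exact differentiableAt_const _
    · have : dp (0 : ℝ → (Fin m ⊕ Fin m → ℝ) → X) = 0 := by
        funext ψ z
        simp [dp]
      rw [this]
      exact differentiableAt_const _
    · intro ψ z
      have h0 : vf (0 : Fin m ⊕ Fin m → MvPolynomial (Fin m ⊕ Fin m) ℝ) z = 0 := by
        funext i
        simp [vf]
      have : dp (0 : ℝ → (Fin m ⊕ Fin m → ℝ) → X) = 0 := by
        funext ψ z
        simp [dp]
      rw [h0, px_zero, this, this]
      simp
    · intro z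
      simp [vf]
  | add x y hx hy ihx ihy =>
    obtain ⟨cx, F1, q1, a1, a2, a3, a4, a5⟩ := ihx
    obtain ⟨cy, F2, q2, b1, b2, b3, b4, b5⟩ := ihy
    have hd : dp (q1 + q2) = dp q1 + dp q2 := by
      funext ψ z
      exact deriv_add (a3 ψ z).1 (b3 ψ z).1
    have hd' : dp (dp (q1 + q2)) = dp (dp q1) + dp (dp q2) := by
      rw [hd]
      funext ψ z
      exact deriv_add (a3 ψ z).2 (b3 ψ z).2
    have hvf : ∀ z, vf (F1 + F2) z = vf F1 z + vf F2 z := by
      intro z
      funext i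
      simp [vf]
    refine ⟨fun z => (cx z).add (cy z), F1 + F2, q1 + q2, fun i => (a1 i).add (b1 i),
      Submodule.add_mem _ a2 b2, fun ψ z => ⟨(a3 ψ z).1.add (b3 ψ z).1, ?_⟩, ?_, ?_⟩
    · rw [hd]
      exact (a3 ψ z).2.add (b3 ψ z).2
    · intro ψ z
      rw [hd', hvf, px_add]
      simp only [Pi.add_apply, map_add]
      have e1 := a4 ψ z
      have e2 := b4 ψ z
      rw [neg_add, ← e1, ← e2]
      module
    · intro z
      rw [hvf]
      have e1 : ∀ ψ, ⟪W.e ((x + y) ψ z), W.e (px φ ψ z)⟫_ℝ =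
          ⟪W.e (x ψ z), W.e (px φ ψ z)⟫_ℝ + ⟪W.e (y ψ z), W.e (px φ ψ z)⟫_ℝ := by
        intro ψ
        simp only [Pi.add_apply, map_add]
        rw [inner_add_left]
      simp only [e1]
      rw [intervalIntegral.integral_add, neg_add, ← a5 z, ← b5 z]
      · simp only [Pi.add_apply, mul_add, Finset.sum_add_distrib]
      · exact (((W.e.continuous.comp (cx z)).inner
          (W.e.continuous.comp (px_cont φ z))).intervalIntegrable _ _)
      · exact (((W.e.continuous.comp (cy z)).inner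
          (W.e.continuous.comp (px_cont φ z))).intervalIntegrable _ _)
  | smul c x hx ihx =>
    obtain ⟨cx, F1, q1, a1, a2, a3, a4, a5⟩ := ihx
    have hd : dp (c • q1) = c • dp q1 := by
      funext ψ z
      exact deriv_const_smul c (a3 ψ z).1
    have hd' : dp (dp (c • q1)) = c • dp (dp q1) := by
      rw [hd]
      funext ψ z
      exact deriv_const_smul c (a3 ψ z).2
    have hvf : ∀ z, vf (fun i => MvPolynomial.C c * F1 i) z = c • vf F1 z := by
      intro z
      funext i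
      simp [vf]
    refine ⟨fun z => (cx z).const_smul c, fun i => MvPolynomial.C c * F1 i, c • q1, fun i => ?_,
      Submodule.smul_mem _ c a2, fun ψ z => ⟨(a3 ψ z).1.const_smul c, ?_⟩, ?_, ?_⟩
    · have := (MvPolynomial.isHomogeneous_C (Fin m ⊕ Fin m) c).mul (a1 i)
      rwa [zero_add] at this
    · rw [hd]
      exact (a3 ψ z).2.const_smul c
    · intro ψ z
      rw [hd', hvf, px_smul]
      simp only [Pi.smul_apply, map_smul]
      have e1 := a4 ψ z
      rw [← smul_neg, ← e1]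
      module
    · intro z
      rw [hvf]
      have e1 : ∀ ψ, ⟪W.e ((c • x) ψ z), W.e (px φ ψ z)⟫_ℝ =
          c * ⟪W.e (x ψ z), W.e (px φ ψ z)⟫_ℝ := by
        intro ψ
        simp only [Pi.smul_apply, map_smul]
        rw [real_inner_smul_left]
      simp only [e1]
      rw [intervalIntegral.integral_const_mul, ← mul_neg, ← a5 z]
      simp only [Pi.smul_apply, smul_eq_mul, Finset.mul_sum]
      exact Finset.sum_congr rfl fun i _ => by ring

end

end Pool.Agent.BEN.H6
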